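import Pool.Agent.Y506.FF.Pos
import Pool.Agent.Y363.FF.LD
import Pool.Agent.Y761.FF.Logm
import Pool.Agent.Y100.FF.Mom
import Pool.Agent.Y758.FF.Var
import Pool.Agent.Y67.FF.Dec
import Pool.Agent.Y67.FF.Cen
import Pool.Agent.Y655.FF.Spl
import Pool.Agent.Y362.FF.Det
import Pool.Agent.Y809.FF.Jac
import Pool.Agent.Y487.FF.Th
import Pool.Agent.Y445.FF.Mila
import Pool.Agent.Y665.FF.Milb

/-!
# Polytopes with few facets: sets of measure one half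
-/

set_option autoImplicit false

namespace Pool.Agent.Y506.FF

open MeasureTheory Set Filter Topology
open scoped ENNReal InnerProductSpace
open Pool.Agent.W695.KH (Eu EU EV VV Sm Pot Uu)

theorem th : S_TH := Pool.Agent.Y487.FF.th Pool.Agent.Y362.FF.detm Pool.Agent.Y809.FF.jac
  Pool.Agent.Y67.FF.dec

theorem milb : S_MILB := Pool.Agent.Y665.FF.milb Pool.Agent.Y445.FF.mila'

/-- sets of measure one half for linear images of polytopes with at most `n + q` facets -/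
theorem poly (q : ℕ) : ∃ c : ℝ, 0 < c ∧
    ∀ (n N : ℕ), 1 ≤ n → N ≤ n + q → ∀ (v : Fin N → Eu (Fin n)) (b : Fin N → ℝ),
    Bornology.IsBounded {x : Eu (Fin n) | ∀ i, ⟪v i, x⟫_ℝ ≤ b i} →
    (interior {x : Eu (Fin n) | ∀ i, ⟪v i, x⟫_ℝ ≤ b i}).Nonempty →
    ∀ (k : ℕ) (T : Eu (Fin n) →ₗ[ℝ] Eu (Fin k)) (μ : Measure (Eu (Fin k))),
    μ = Measure.map T ((volume {x : Eu (Fin n) | ∀ i, ⟪v i, x⟫_ℝ ≤ b i})⁻¹ •
      volume.restrict {x : Eu (Fin n) | ∀ i, ⟪v i, x⟫_ℝ ≤ b i}) →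
    ∀ s : ℝ, 0 < s → (∀ θ : Eu (Fin k), ‖θ‖ = 1 →
      ProbabilityTheory.variance (fun x => ⟪x, θ⟫_ℝ) μ ≤ s) →
    ∀ S : Set (Eu (Fin k)), MeasurableSet S → μ S = 1 / 2 →
    ENNReal.ofReal (c / Real.sqrt s) ≤
      liminf (fun ε : ℝ => (μ (Metric.thickening ε S) - μ S) / ENNReal.ofReal ε) (𝓝[>] 0) :=
  poly_img Pool.Agent.Y363.FF.ld Pool.Agent.Y100.FF.mom Pool.Agent.Y67.FF.dec
    Pool.Agent.Y655.FF.spl Pool.Agent.Y761.FF.logm Pool.Agent.Y758.FF.var th milb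
    Pool.Agent.Y67.FF.cpl Pool.Agent.Y67.FF.cen q

end Pool.Agent.Y506.FF
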