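import Pool.Agent.Y506.FF.Asm

/-!
# Comparison with halfspaces
-/

set_option autoImplicit false

namespace Pool.Agent.Y506.FF

open MeasureTheory Set Filter Topology
open scoped ENNReal InnerProductSpace
open Pool.Agent.W695.KH (Eu EU EV VV Sm Pot Uu)

theorem ennreal_sup_aux (a t I : ℝ≥0∞) (h : ∀ r : ℝ, 0 < r → ENNReal.ofReal r ≤ t →
    a * ENNReal.ofReal r ≤ I) : a * t ≤ I := by
  by_cases h0 : t = 0
  · rw [h0, mul_zero]
    exact zero_le
  by_cases ht : t = ⊤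
  · by_cases ha : a = 0
    · rw [ha, zero_mul]
      exact zero_le
    by_contra hn
    rw [not_le] at hn
    have hI : I ≠ ⊤ := ne_top_of_lt hn
    have ha' : a ≠ ⊤ := by
      intro ha'
      have h1 := h 1 one_pos (by rw [ht]; exact le_top)
      rw [ha', ENNReal.ofReal_one, mul_one, top_le_iff] at h1
      exact hI h1
    have h1 := h ((I / a).toReal + 1) (by positivity) (by rw [ht]; exact le_top)
    rw [ENNReal.ofReal_add ENNReal.toReal_nonneg zero_le_one, ENNReal.ofReal_toReal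
      (ENNReal.div_ne_top hI ha), mul_add, ENNReal.mul_div_cancel ha ha', ENNReal.ofReal_one,
      mul_one] at h1
    have h2 : I < I + a := ENNReal.lt_add_right hI ha
    exact absurd h1 (not_le.2 h2)
  · have h1 := h t.toReal (ENNReal.toReal_pos h0 ht) (by rw [ENNReal.ofReal_toReal ht])
    rwa [ENNReal.ofReal_toReal ht] at h1

theorem cheHalf (hH : S_HALF) (q : ℕ) : ∃ c : ℝ, 0 < c ∧
    ∀ (n N : ℕ), 1 ≤ n → N ≤ n + q → ∀ (v : Fin N → Eu (Fin n)) (b : Fin N → ℝ),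
    Bornology.IsBounded {x : Eu (Fin n) | ∀ i, ⟪v i, x⟫_ℝ ≤ b i} →
    (interior {x : Eu (Fin n) | ∀ i, ⟪v i, x⟫_ℝ ≤ b i}).Nonempty →
    ∀ (μ : Measure (Eu (Fin n))),
    μ = (volume {x : Eu (Fin n) | ∀ i, ⟪v i, x⟫_ℝ ≤ b i})⁻¹ •
      volume.restrict {x : Eu (Fin n) | ∀ i, ⟪v i, x⟫_ℝ ≤ b i} → ∀ t : ℝ≥0∞,
    (∀ (a : Eu (Fin n)) (b : ℝ), a ≠ 0 → t * min (μ {x | ⟪a, x⟫_ℝ ≤ b}) (1 - μ {x | ⟪a, x⟫_ℝ ≤ b}) ≤
      liminf (fun ε : ℝ => (μ (Metric.thickening ε {x | ⟪a, x⟫_ℝ ≤ b}) -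
        μ {x | ⟪a, x⟫_ℝ ≤ b}) / ENNReal.ofReal ε) (𝓝[>] 0)) →
    ∀ S : Set (Eu (Fin n)), MeasurableSet S → μ S = 1 / 2 → ENNReal.ofReal c * t ≤
      liminf (fun ε : ℝ => (μ (Metric.thickening ε S) - μ S) / ENNReal.ofReal ε) (𝓝[>] 0) := by
  obtain ⟨c, hc, H⟩ := poly q
  obtain ⟨C, hC, HH⟩ := hH
  refine ⟨c / Real.sqrt C, by positivity, ?_⟩
  intro n N hn hN v b hbd hint μ hμ t ht S hS hS2
  obtain ⟨P, hP⟩ : ∃ P : Set (Eu (Fin n)), P = {x : Eu (Fin n) | ∀ i, ⟪v i, x⟫_ℝ ≤ b i} := ⟨_, rfl⟩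
  have hcl : IsClosed P := by
    have h1 : P = ⋂ i, {x | ⟪v i, x⟫_ℝ ≤ b i} := by
      rw [hP]
      ext x
      simp
    rw [h1]
    exact isClosed_iInter fun i => isClosed_le (by fun_prop) continuous_const
  have hcp : IsCompact P := Metric.isCompact_of_isClosed_isBounded hcl (by rw [hP]; exact hbd)
  have hco : Convex ℝ P := by
    rw [hP]
    intro x hx y hy s r hs hr hsr i
    rw [inner_add_right, real_inner_smul_right, real_inner_smul_right]
    have h1 := mul_le_mul_of_nonneg_left (hx i) hs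
    have h2 := mul_le_mul_of_nonneg_left (hy i) hr
    have h3 : s * b i + r * b i = b i := by rw [← add_mul, hsr, one_mul]
    linarith
  rw [← hP] at hμ hint
  have hvol : 0 < volume P :=
    lt_of_lt_of_le (isOpen_interior.measure_pos volume hint) (measure_mono interior_subset)
  have hprob : IsProbabilityMeasure μ := by
    rw [hμ]; exact Pool.Agent.Y506.KS.unif_prob hvol hcp.measure_lt_top.ne
  refine ennreal_sup_aux _ _ _ fun r hr hrt => ?_
  have hvar : ∀ θ : Eu (Fin n), ‖θ‖ = 1 →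
      ProbabilityTheory.variance (fun x => ⟪x, θ⟫_ℝ) μ ≤ C / r ^ 2 := by
    intro θ hθ
    obtain ⟨m, hm⟩ := HH (Fin n) P hcp hco hint μ hμ θ t hθ fun b => ht θ b (by
      intro h0
      rw [h0, norm_zero] at hθ
      exact zero_ne_one hθ)
    have hint' : Integrable (fun x => (⟪θ, x⟫_ℝ - m) ^ 2) μ := by
      rw [hμ]
      refine Integrable.smul_measure ?_ (ENNReal.inv_ne_top.2 hvol.ne')
      have : Continuous fun x : Eu (Fin n) => (⟪θ, x⟫_ℝ - m) ^ 2 := by fun_prop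
      exact this.continuousOn.integrableOn_compact hcp
    rw [← ofReal_integral_eq_lintegral_ofReal hint' (Eventually.of_forall fun x => sq_nonneg _)] at hm
    obtain ⟨W, hW⟩ : ∃ W : ℝ, W = ∫ x, (⟪θ, x⟫_ℝ - m) ^ 2 ∂μ := ⟨_, rfl⟩
    rw [← hW] at hm
    have h1 : ENNReal.ofReal (r ^ 2 * W) ≤ ENNReal.ofReal C := by
      rw [ENNReal.ofReal_mul (by positivity), ENNReal.ofReal_pow hr.le]
      exact (mul_le_mul_left (pow_le_pow_left' hrt 2) _).trans hm
    have h2 : r ^ 2 * W ≤ C := (ENNReal.ofReal_le_ofReal_iff hC.le).1 h1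
    have h3 : ProbabilityTheory.variance (fun x => ⟪x, θ⟫_ℝ) μ ≤ W := by
      have h4 : ProbabilityTheory.variance (fun x => ⟪x, θ⟫_ℝ - m) μ =
          ProbabilityTheory.variance (fun x => ⟪x, θ⟫_ℝ) μ :=
        ProbabilityTheory.variance_sub_const (by fun_prop) m
      rw [← h4]
      refine (ProbabilityTheory.variance_le_expectation_sq (by fun_prop)).trans (le_of_eq ?_)
      rw [hW]
      refine integral_congr_ae (Eventually.of_forall fun x => ?_)
      simp only [Pi.pow_apply]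
      rw [real_inner_comm]
    refine h3.trans ?_
    rw [le_div_iff₀ (by positivity)]
    linarith
  have key := H n N hn hN v b hbd (by rw [← hP]; exact hint) n LinearMap.id μ (by
    rw [← hP, hμ]
    exact (Measure.map_id).symm) (C / r ^ 2) (by positivity) hvar S hS hS2
  refine le_trans (le_of_eq ?_) key
  rw [← ENNReal.ofReal_mul (by positivity), Real.sqrt_div hC.le, Real.sqrt_sq hr.le]
  congr 1
  field_simp

end Pool.Agent.Y506.FF
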