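import Pool.Agent.Y506.FF.Lc
import Pool.Agent.Y506.KS.Pi
import Pool.Agent.W695.KH.Mink2

/-!
# Sets of measure one half
-/

set_option autoImplicit false

namespace Pool.Agent.Y506.FF

open MeasureTheory Set Filter Topology
open scoped ENNReal InnerProductSpace
open Pool.Agent.W695.KH (Eu EU EV VV Sm Pot Uu)

variable {ι : Type} [Fintype ι] {n d : ℕ}

theorem KB_convex (L : Eu (Fin n) →ₗᵢ[ℝ] Eu ι) : Convex ℝ (KB L) := by
  intro x hx y hy a b ha hb hab i
  have h1 : L (a • x + b • y) i = a * L x i + b * L y i := by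
    rw [map_add, map_smul, map_smul]
    rfl
  rw [h1]
  have h2 := mul_nonneg ha (hx i)
  have h3 := mul_nonneg hb (hy i)
  nlinarith

theorem KB_compact (L : Eu (Fin n) →ₗᵢ[ℝ] Eu ι) (hL : ∀ x, ∑ i, L x i = 0) :
    IsCompact (KB L) := by
  refine Metric.isCompact_of_isClosed_isBounded (KB_closed L) ?_
  refine (Metric.isBounded_closedBall (x := (0 : Eu (Fin n)))
    (r := Real.sqrt ((Fintype.card ι : ℝ) * (Fintype.card ι + 1) ^ 2))).subset fun x hx => ?_
  rw [mem_closedBall_zero_iff, ← L.norm_map, EuclideanSpace.norm_eq]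
  refine Real.sqrt_le_sqrt ?_
  have h1 : ∀ i, ‖L x i‖ ^ 2 ≤ ((Fintype.card ι : ℝ) + 1) ^ 2 := by
    intro i
    have h2 : 1 + L x i ≤ ∑ j, (1 + L x j) :=
      Finset.single_le_sum (f := fun j => 1 + L x j) (fun j _ => hx j) (Finset.mem_univ i)
    rw [Finset.sum_add_distrib, hL] at h2
    have h3 := hx i
    simp only [Finset.sum_const, Finset.card_univ, nsmul_eq_mul, mul_one, add_zero] at h2
    rw [Real.norm_eq_abs, sq_abs]
    have h4 : (0 : ℝ) ≤ Fintype.card ι := Nat.cast_nonneg _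
    nlinarith
  calc ∑ i, ‖L x i‖ ^ 2 ≤ ∑ _i : ι, ((Fintype.card ι : ℝ) + 1) ^ 2 :=
        Finset.sum_le_sum fun i _ => h1 i
    _ = _ := by simp

theorem VV_le {κ : Type} [Fintype κ] {D : Set (Eu κ)} (hD : IsCompact D) (hv : 0 < volume D)
    (v : Eu κ → ℝ) (hc : Continuous v) (m : ℝ) :
    VV D v ≤ (∫ x in D, (v x - m) ^ 2) / (volume D).toReal := by
  have hfin : volume D ≠ ⊤ := hD.measure_lt_top.ne
  have hV : 0 < (volume D).toReal := ENNReal.toReal_pos hv.ne' hfin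
  have i1 : IntegrableOn v D := hc.continuousOn.integrableOn_compact hD
  have i2 : IntegrableOn (fun x => v x ^ 2) D := (hc.pow 2).continuousOn.integrableOn_compact hD
  have e1 : ∫ x in D, (v x - m) ^ 2 = (∫ x in D, v x ^ 2) - 2 * m * (∫ x in D, v x) +
      m ^ 2 * (volume D).toReal := by
    have h1 : ∀ x, (v x - m) ^ 2 = (v x ^ 2 - 2 * m * v x) + m ^ 2 := fun x => by ring
    simp only [h1]
    have i3 : IntegrableOn (fun _ : Eu κ => m ^ 2) D := integrable_const_iff.2 (Or.inr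
      ⟨by simpa using hD.measure_lt_top⟩)
    have i4 : IntegrableOn (fun x => 2 * m * v x) D := i1.const_mul _
    have e2 : ∫ x in D, ((v x ^ 2 - 2 * m * v x) + m ^ 2) = (∫ x in D, (v x ^ 2 - 2 * m * v x)) +
        ∫ _ in D, m ^ 2 := integral_add (i2.sub i4) i3
    have e3 : ∫ x in D, (v x ^ 2 - 2 * m * v x) = (∫ x in D, v x ^ 2) -
        ∫ x in D, 2 * m * v x := integral_sub i2 i4
    rw [e2, e3, integral_const_mul, setIntegral_const, smul_eq_mul, Measure.real,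
      mul_comm (m ^ 2)]
  unfold VV EV
  rw [e1]
  have h2 : ((∫ x in D, v x ^ 2) - 2 * m * (∫ x in D, v x) + m ^ 2 * (volume D).toReal) /
      (volume D).toReal - ((∫ x in D, v x ^ 2) / (volume D).toReal -
        ((∫ x in D, v x) / (volume D).toReal) ^ 2) =
      ((∫ x in D, v x) / (volume D).toReal - m) ^ 2 := by
    field_simp
    ring
  have h3 := sq_nonneg ((∫ x in D, v x) / (volume D).toReal - m)
  linarith

/-- concentration -/
theorem lcon (hLD : S_LD) (hM : S_MOM) (hD : S_DEC) (hS : S_SPL) (hlog : S_LOG) (hV : S_VAR)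
    (hTH : S_TH) (d : ℕ) (hd : 0 < d) : ∃ l : ℝ, 0 < l ∧ ∀ (ι : Type) [Fintype ι] (n : ℕ)
      (L : Eu (Fin (n + 1)) →ₗᵢ[ℝ] Eu ι)
      (M : Eu (Fin d) →ₗᵢ[ℝ] Eu ι), Pair L M → (∀ x, ∑ i, L x i = 0) → LCon (KB L) l (1 / 25) := by
  obtain ⟨c, C, hc, hC, H1⟩ := vol_bd hLD hM hD d hd
  obtain ⟨l, hl, H⟩ := bad hLD hM hD hS hlog hV hTH d hd
  refine ⟨l, hl, fun ι _ n L M hP hL v hv hv1 hvl => ?_⟩
  obtain ⟨m, hm, hb⟩ := H ι n L M hP hL v hv hv1 hvl
  obtain ⟨-, v2, v3⟩ := H1 ι (n + 1) L M hP hL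
  have hcp := KB_compact L hL
  have hV0 : 0 < (volume (KB L)).toReal := ENNReal.toReal_pos v2 v3
  refine (VV_le hcp (pos_iff_ne_zero.2 v2) v hv.continuous m).trans ?_
  rw [div_le_iff₀ hV0]
  obtain ⟨B, hB⟩ : ∃ B : Set (Eu (Fin (n + 1))), B = {x | 1 / 10 ≤ |v x - m|} := ⟨_, rfl⟩
  have hBm : MeasurableSet B := by
    rw [hB]
    exact (isClosed_le continuous_const
      ((hv.continuous.sub continuous_const).abs)).measurableSet
  rw [← hB] at hb
  have hbr : (volume (KB L ∩ B)).toReal ≤ (volume (KB L)).toReal * (1 / 400) := by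
    have h1 := ENNReal.toReal_mono (ENNReal.mul_ne_top v3 ENNReal.ofReal_ne_top) hb
    rwa [ENNReal.toReal_mul, ENNReal.toReal_ofReal (by norm_num)] at h1
  have h1 : ∫ x in KB L, (v x - m) ^ 2 ≤ ∫ x in KB L, (1 / 100 + B.indicator (fun _ => (4 : ℝ)) x) := by
    refine setIntegral_mono_on ?_ ?_ hcp.measurableSet ?_
    · exact ((hv.continuous.sub continuous_const).pow 2).continuousOn.integrableOn_compact hcp
    · refine Integrable.add (integrable_const_iff.2 (Or.inr ⟨by simpa using hcp.measure_lt_top⟩)) ?_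
      refine IntegrableOn.integrable ?_
      exact (integrable_const_iff.2 (Or.inr ⟨by simpa using hcp.measure_lt_top⟩)).indicator hBm
    · intro x _
      have h2 : |v x - m| ≤ 2 := by
        have := hv1 x
        have := abs_sub (v x) m
        linarith
      by_cases hx : x ∈ B
      · rw [indicator_of_mem hx, ← sq_abs]
        nlinarith [abs_nonneg (v x - m)]
      · rw [indicator_of_notMem hx, ← sq_abs]
        rw [hB, mem_ofPred_eq, not_le] at hx
        nlinarith [abs_nonneg (v x - m)]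
  refine h1.trans ?_
  rw [integral_add (integrable_const_iff.2 (Or.inr ⟨by simpa using hcp.measure_lt_top⟩))
    ((integrable_const_iff.2 (Or.inr ⟨by simpa using hcp.measure_lt_top⟩)).indicator hBm),
    setIntegral_const, setIntegral_indicator hBm, setIntegral_const, smul_eq_mul, smul_eq_mul,
    Measure.real, Measure.real]
  linarith

/-- lower bound for second moments -/
theorem low_of_bd (P : ℝ → ℝ≥0∞) (hm : Measurable P) (C : ℝ) (hC : 0 < C)
    (h1 : ∀ u, P u ≤ ENNReal.ofReal C) (h2 : ∫⁻ u, P u = 1) (a : ℝ) :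
    ENNReal.ofReal (1 / (32 * C ^ 2)) ≤ ∫⁻ u, ENNReal.ofReal ((u - a) ^ 2) * P u := by
  obtain ⟨I, hI⟩ : ∃ I : Set ℝ, I = Metric.closedBall a (1 / (4 * C)) := ⟨_, rfl⟩
  have hIm : MeasurableSet I := by rw [hI]; exact measurableSet_closedBall
  have h3 : ∫⁻ u in I, P u ≤ ENNReal.ofReal (1 / 2) := by
    calc ∫⁻ u in I, P u ≤ ∫⁻ _ in I, ENNReal.ofReal C := lintegral_mono fun u => h1 u
      _ = ENNReal.ofReal C * volume I := by rw [setLIntegral_const]
      _ = ENNReal.ofReal (1 / 2) := by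
          rw [hI, Real.volume_closedBall, ← ENNReal.ofReal_mul hC.le]
          congr 1
          field_simp
          norm_num
  have h4 : ENNReal.ofReal (1 / 2) ≤ ∫⁻ u in Iᶜ, P u := by
    have h5 := lintegral_add_compl (μ := volume) P hIm
    rw [h2] at h5
    by_contra hn
    rw [not_le] at hn
    have h6 : (∫⁻ u in I, P u) + (∫⁻ u in Iᶜ, P u) < 1 := by
      calc (∫⁻ u in I, P u) + (∫⁻ u in Iᶜ, P u)
          < ENNReal.ofReal (1 / 2) + ENNReal.ofReal (1 / 2) :=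
            ENNReal.add_lt_add_of_le_of_lt (ne_top_of_le_ne_top ENNReal.ofReal_ne_top h3) h3 hn
        _ = 1 := by
            rw [← ENNReal.ofReal_add (by norm_num) (by norm_num)]
            norm_num
    exact absurd h5 h6.ne
  calc ENNReal.ofReal (1 / (32 * C ^ 2)) = ENNReal.ofReal ((1 / (4 * C)) ^ 2) *
        ENNReal.ofReal (1 / 2) := by
        rw [← ENNReal.ofReal_mul (by positivity)]
        congr 1
        field_simp
        norm_num
    _ ≤ ENNReal.ofReal ((1 / (4 * C)) ^ 2) * ∫⁻ u in Iᶜ, P u := mul_le_mul_right h4 _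
    _ = ∫⁻ u in Iᶜ, ENNReal.ofReal ((1 / (4 * C)) ^ 2) * P u := (lintegral_const_mul _ hm).symm
    _ ≤ ∫⁻ u in Iᶜ, ENNReal.ofReal ((u - a) ^ 2) * P u := by
        refine setLIntegral_mono' hIm.compl fun u hu => ?_
        refine mul_le_mul_left (ENNReal.ofReal_le_ofReal ?_) _
        rw [hI, mem_compl_iff, Metric.mem_closedBall, not_le, Real.dist_eq] at hu
        rw [← sq_abs (u - a)]
        exact pow_le_pow_left₀ (by positivity) hu.le 2
    _ ≤ _ := setLIntegral_le_lintegral _ _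

theorem lowvar (hLD : S_LD) (hM : S_MOM) (hD : S_DEC) (hS : S_SPL) (d : ℕ)
    (hd : 0 < d) : ∃ c : ℝ, 0 < c ∧ ∀ (ι : Type) [Fintype ι] (n : ℕ)
      (L : Eu (Fin (n + 1)) →ₗᵢ[ℝ] Eu ι)
      (M : Eu (Fin d) →ₗᵢ[ℝ] Eu ι), Pair L M → (∀ x, ∑ i, L x i = 0) → ∀ (θ : Eu (Fin (n + 1)))
      (a : ℝ), ‖θ‖ = 1 → volume (KB L) * ENNReal.ofReal c ≤
        ∫⁻ x in KB L, ENNReal.ofReal ((⟪θ, x⟫_ℝ - a) ^ 2) := by
  obtain ⟨C1, C2, hC1, hC2, H⟩ := sec1 hLD hM hD hS d hd
  refine ⟨1 / (32 * C1 ^ 2), by positivity, fun ι _ n L M hP hL θ a hθ => ?_⟩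
  obtain ⟨P, hPm, hP1, hPu, hP2, hPφ⟩ := H ι n L M hP hL θ hθ
  rw [hPφ (fun u => ENNReal.ofReal ((u - a) ^ 2)) (by fun_prop)]
  exact mul_le_mul_right (low_of_bd P hPm C1 hC1 hP1 hPu a) _

/-- sets of measure one half in the body -/
theorem half_body (hLD : S_LD) (hM : S_MOM) (hD : S_DEC) (hS : S_SPL) (hlog : S_LOG) (hV : S_VAR)
    (hTH : S_TH) (hmil : S_MILB) (d : ℕ) (hd : 0 < d) : ∃ c : ℝ, 0 < c ∧
    ∀ (ι : Type) [Fintype ι] (n : ℕ) (L : Eu (Fin (n + 1)) →ₗᵢ[ℝ] Eu ι)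
      (M : Eu (Fin d) →ₗᵢ[ℝ] Eu ι), Pair L M → (∀ x, ∑ i, L x i = 0) →
      ∀ μ : Measure (Eu (Fin (n + 1))), μ = (volume (KB L))⁻¹ • volume.restrict (KB L) →
      ∀ S : Set (Eu (Fin (n + 1))), μ S = 1 / 2 → ENNReal.ofReal c ≤
        liminf (fun ε : ℝ => (μ (Metric.thickening ε S) - μ S) / ENNReal.ofReal ε) (𝓝[>] 0) := by
  obtain ⟨c, C, hc, hC, H1⟩ := vol_bd hLD hM hD d hd
  obtain ⟨l, hl, H⟩ := lcon hLD hM hD hS hlog hV hTH d hd
  refine ⟨l / 8, by positivity, fun ι _ n L M hP hL μ hμ S hS2 => ?_⟩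
  obtain ⟨-, v2, v3⟩ := H1 ι (n + 1) L M hP hL
  have hcp := KB_compact L hL
  have hlc := H ι n L M hP hL
  have key := Pool.Agent.W695.KH.mink2 (KB L) hcp (pos_iff_ne_zero.2 v2) (2 / l) (by positivity)
    (fun f L' M' hf hfb hf5 => hmil (Fin (n + 1)) (KB L) hcp (KB_convex L) (pos_iff_ne_zero.2 v2)
      (1 / 25) l (by norm_num) hl hlc f L' M' hf hfb (by linarith)) μ hμ S hS2
  obtain ⟨I, hI⟩ : ∃ I : ℝ≥0∞, I = liminf (fun ε : ℝ => (μ (Metric.thickening ε S) - μ S) /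
    ENNReal.ofReal ε) (𝓝[>] 0) := ⟨_, rfl⟩
  rw [← hI] at key ⊢
  rw [hS2] at key
  have h1 : (1 / 2 : ℝ≥0∞) * (1 - 1 / 2) = ENNReal.ofReal (1 / 4) := by
    have h2 : (1 / 2 : ℝ≥0∞) = ENNReal.ofReal (1 / 2) := by
      rw [ENNReal.ofReal_div_of_pos (by norm_num)]
      norm_num
    rw [h2, ← ENNReal.ofReal_one, ← ENNReal.ofReal_sub _ (by norm_num),
      ← ENNReal.ofReal_mul (by norm_num)]
    norm_num
  rw [h1] at key
  have h3 : ENNReal.ofReal (l / 8) = ENNReal.ofReal (l / 2) * ENNReal.ofReal (1 / 4) := by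
    rw [← ENNReal.ofReal_mul (by positivity)]
    congr 1
    ring
  rw [h3]
  calc ENNReal.ofReal (l / 2) * ENNReal.ofReal (1 / 4) ≤
        ENNReal.ofReal (l / 2) * (ENNReal.ofReal (2 / l) * I) := mul_le_mul_right key _
    _ = I := by
        rw [← mul_assoc, ← ENNReal.ofReal_mul (by positivity)]
        have : l / 2 * (2 / l) = 1 := by field_simp
        rw [this, ENNReal.ofReal_one, one_mul]

end Pool.Agent.Y506.FF
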