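import Pool.Agent.Y506.FF.Fin1

/-!
# Affine images
-/

set_option autoImplicit false

namespace Pool.Agent.Y506.FF

open MeasureTheory Set Filter Topology
open scoped ENNReal InnerProductSpace
open Pool.Agent.W695.KH (Eu EU EV VV Sm Pot Uu)

/-- second moments of linear functionals of an affine image -/
theorem adj_bd {m k : ℕ} {K : Set (Eu (Fin m))} (hK : IsCompact K) (hv : 0 < volume K)
    (μ : Measure (Eu (Fin m))) (hμ : μ = (volume K)⁻¹ • volume.restrict K) (c : ℝ) (hc : 0 < c)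
    (hlow : ∀ (θ : Eu (Fin m)) (a : ℝ), ‖θ‖ = 1 → volume K * ENNReal.ofReal c ≤
        ∫⁻ x in K, ENNReal.ofReal ((⟪θ, x⟫_ℝ - a) ^ 2))
    (T : Eu (Fin m) →ₗ[ℝ] Eu (Fin k)) (b : Eu (Fin k)) (μ' : Measure (Eu (Fin k)))
    (hμ' : μ' = Measure.map (fun x => T x + b) μ) (s : ℝ)
    (θ : Eu (Fin k)) (hvar : ProbabilityTheory.variance (fun x => ⟪x, θ⟫_ℝ) μ' ≤ s) :
    ‖LinearMap.adjoint T θ‖ ^ 2 * c ≤ s := by
  have hfin : volume K ≠ ⊤ := hK.measure_lt_top.ne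
  have hprob : IsProbabilityMeasure μ := by
    rw [hμ]; exact Pool.Agent.Y506.KS.unif_prob hv hfin
  have hTc : Continuous T := T.continuous_of_finiteDimensional
  have hTm : Measurable fun x => T x + b := (hTc.add continuous_const).measurable
  obtain ⟨w, hw⟩ : ∃ w : Eu (Fin m), w = LinearMap.adjoint T θ := ⟨_, rfl⟩
  rw [← hw]
  have hm1 : Measurable fun x : Eu (Fin k) => ⟪x, θ⟫_ℝ := by fun_prop
  rw [hμ', ProbabilityTheory.variance_map hm1.aemeasurable hTm.aemeasurable] at hvar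
  obtain ⟨X, hX⟩ : ∃ X : Eu (Fin m) → ℝ, X = (fun x : Eu (Fin k) => ⟪x, θ⟫_ℝ) ∘ fun x => T x + b :=
    ⟨_, rfl⟩
  rw [← hX] at hvar
  have hX1 : ∀ x, X x = ⟪w, x⟫_ℝ + ⟪b, θ⟫_ℝ := by
    intro x
    rw [hX, hw, Function.comp_apply, inner_add_left, LinearMap.adjoint_inner_left,
      real_inner_comm θ (T x)]
  have hXc : Continuous X := by
    have : X = fun x => ⟪w, x⟫_ℝ + ⟪b, θ⟫_ℝ := funext hX1
    rw [this]
    fun_prop
  obtain ⟨a, ha⟩ : ∃ a : ℝ, a = (∫ x, X x ∂μ) - ⟪b, θ⟫_ℝ := ⟨_, rfl⟩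
  rw [ProbabilityTheory.variance_eq_integral hXc.measurable.aemeasurable] at hvar
  have hint : Integrable (fun x => (⟪w, x⟫_ℝ - a) ^ 2) μ := by
    rw [hμ]
    refine Integrable.smul_measure ?_ (ENNReal.inv_ne_top.2 hv.ne')
    have : Continuous fun x : Eu (Fin m) => (⟪w, x⟫_ℝ - a) ^ 2 := by fun_prop
    exact this.continuousOn.integrableOn_compact hK
  have e1 : ∫ x, (X x - ∫ x, X x ∂μ) ^ 2 ∂μ = ∫ x, (⟪w, x⟫_ℝ - a) ^ 2 ∂μ := by
    refine integral_congr_ae (Eventually.of_forall fun x => ?_)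
    simp only
    rw [hX1, ha]
    ring
  rw [e1] at hvar
  have h2 : ∫⁻ x, ENNReal.ofReal ((⟪w, x⟫_ℝ - a) ^ 2) ∂μ ≤ ENNReal.ofReal s := by
    rw [← ofReal_integral_eq_lintegral_ofReal hint (Eventually.of_forall fun x => sq_nonneg _)]
    exact ENNReal.ofReal_le_ofReal hvar
  have hs0 : 0 ≤ s := le_trans (integral_nonneg fun x => sq_nonneg _) hvar
  by_cases h0 : w = 0
  · rw [h0, norm_zero]
    simpa using hs0
  have hn : 0 < ‖w‖ := norm_pos_iff.2 h0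
  have h3 := hlow (‖w‖⁻¹ • w) (‖w‖⁻¹ * a) (by
    rw [norm_smul, norm_inv, norm_norm, inv_mul_cancel₀ hn.ne'])
  have h4 : ∀ x, ENNReal.ofReal ((⟪‖w‖⁻¹ • w, x⟫_ℝ - ‖w‖⁻¹ * a) ^ 2) =
      ENNReal.ofReal ((‖w‖⁻¹) ^ 2) * ENNReal.ofReal ((⟪w, x⟫_ℝ - a) ^ 2) := by
    intro x
    rw [← ENNReal.ofReal_mul (sq_nonneg _), real_inner_smul_left]
    congr 1
    ring
  simp only [h4] at h3
  rw [lintegral_const_mul _ (by fun_prop)] at h3
  rw [hμ, lintegral_smul_measure, smul_eq_mul] at h2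
  have h5 : ENNReal.ofReal c ≤ ENNReal.ofReal ((‖w‖⁻¹) ^ 2 * s) := by
    calc ENNReal.ofReal c = (volume K)⁻¹ * (volume K * ENNReal.ofReal c) := by
          rw [← mul_assoc, ENNReal.inv_mul_cancel hv.ne' hfin, one_mul]
      _ ≤ (volume K)⁻¹ * (ENNReal.ofReal ((‖w‖⁻¹) ^ 2) *
          ∫⁻ x in K, ENNReal.ofReal ((⟪w, x⟫_ℝ - a) ^ 2)) := mul_le_mul_right h3 _
      _ = ENNReal.ofReal ((‖w‖⁻¹) ^ 2) * ((volume K)⁻¹ *
          ∫⁻ x in K, ENNReal.ofReal ((⟪w, x⟫_ℝ - a) ^ 2)) := by ring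
      _ ≤ ENNReal.ofReal ((‖w‖⁻¹) ^ 2) * ENNReal.ofReal s := mul_le_mul_right h2 _
      _ = _ := by rw [← ENNReal.ofReal_mul (sq_nonneg _)]
  have h6 : c ≤ (‖w‖⁻¹) ^ 2 * s :=
    (ENNReal.ofReal_le_ofReal_iff (by positivity)).1 h5
  calc ‖w‖ ^ 2 * c ≤ ‖w‖ ^ 2 * ((‖w‖⁻¹) ^ 2 * s) := mul_le_mul_of_nonneg_left h6 (sq_nonneg _)
    _ = s := by field_simp

theorem liminf_scale (F : ℝ → ℝ≥0∞) (r : ℝ) (hr : 0 < r) :
    liminf F (𝓝[>] 0) ≤ liminf (fun ε => F (ε / r)) (𝓝[>] 0) := by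
  have h1 : Tendsto (fun ε : ℝ => ε / r) (𝓝[>] 0) (𝓝[>] 0) := by
    refine tendsto_nhdsWithin_iff.2 ⟨?_, ?_⟩
    · have : Tendsto (fun ε : ℝ => ε / r) (𝓝 0) (𝓝 (0 / r)) :=
        (continuous_id.div_const r).tendsto 0
      rw [zero_div] at this
      exact this.mono_left nhdsWithin_le_nhds
    · filter_upwards [self_mem_nhdsWithin] with ε hε
      exact div_pos hε hr
  have h2 : liminf (fun ε => F (ε / r)) (𝓝[>] 0) = liminf F (map (fun ε : ℝ => ε / r) (𝓝[>] 0)) :=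
    rfl
  rw [h2]
  exact liminf_le_liminf_of_le h1

/-- sets of measure one half in affine images -/
theorem half_img {m k : ℕ} {K : Set (Eu (Fin m))} (hK : IsCompact K) (hv : 0 < volume K)
    (μ : Measure (Eu (Fin m))) (hμ : μ = (volume K)⁻¹ • volume.restrict K) (c c1 : ℝ) (hc : 0 < c)
    (hc1 : 0 < c1)
    (hlow : ∀ (θ : Eu (Fin m)) (a : ℝ), ‖θ‖ = 1 → volume K * ENNReal.ofReal c ≤
        ∫⁻ x in K, ENNReal.ofReal ((⟪θ, x⟫_ℝ - a) ^ 2))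
    (hhalf : ∀ S : Set (Eu (Fin m)), μ S = 1 / 2 → ENNReal.ofReal c1 ≤
        liminf (fun ε : ℝ => (μ (Metric.thickening ε S) - μ S) / ENNReal.ofReal ε) (𝓝[>] 0))
    (T : Eu (Fin m) →ₗ[ℝ] Eu (Fin k)) (b : Eu (Fin k)) (μ' : Measure (Eu (Fin k)))
    (hμ' : μ' = Measure.map (fun x => T x + b) μ) (s : ℝ) (hs : 0 < s)
    (hvar : ∀ θ : Eu (Fin k), ‖θ‖ = 1 →
      ProbabilityTheory.variance (fun x => ⟪x, θ⟫_ℝ) μ' ≤ s)
    (S : Set (Eu (Fin k))) (hS : MeasurableSet S) (hS2 : μ' S = 1 / 2) :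
    ENNReal.ofReal (c1 * Real.sqrt c / Real.sqrt s) ≤
      liminf (fun ε : ℝ => (μ' (Metric.thickening ε S) - μ' S) / ENNReal.ofReal ε) (𝓝[>] 0) := by
  obtain ⟨r, hr⟩ : ∃ r : ℝ, r = Real.sqrt (s / c) := ⟨_, rfl⟩
  have hr0 : 0 < r := by rw [hr]; exact Real.sqrt_pos.2 (by positivity)
  have hTc : Continuous T := T.continuous_of_finiteDimensional
  have hTcb : Continuous fun x => T x + b := hTc.add continuous_const
  have hTm : Measurable fun x => T x + b := hTcb.measurable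
  have hadj : ∀ θ : Eu (Fin k), ‖LinearMap.adjoint T θ‖ ≤ r * ‖θ‖ := by
    intro θ
    by_cases h0 : θ = 0
    · rw [h0, map_zero, norm_zero, norm_zero, mul_zero]
    have hn : 0 < ‖θ‖ := norm_pos_iff.2 h0
    have h1 := adj_bd hK hv μ hμ c hc hlow T b μ' hμ' s (‖θ‖⁻¹ • θ) (hvar _ (by
      rw [norm_smul, norm_inv, norm_norm, inv_mul_cancel₀ hn.ne']))
    rw [map_smul, norm_smul, norm_inv, norm_norm] at h1
    have h2 : (‖θ‖⁻¹ * ‖LinearMap.adjoint T θ‖) ^ 2 ≤ s / c := by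
      rw [le_div_iff₀ hc]; exact h1
    have h3 : ‖θ‖⁻¹ * ‖LinearMap.adjoint T θ‖ ≤ r := by
      rw [hr]; exact Real.le_sqrt_of_sq_le h2
    calc ‖LinearMap.adjoint T θ‖ = (‖θ‖⁻¹ * ‖LinearMap.adjoint T θ‖) * ‖θ‖ := by
          field_simp
      _ ≤ r * ‖θ‖ := mul_le_mul_of_nonneg_right h3 hn.le
  have hT : ∀ x, ‖T x‖ ≤ r * ‖x‖ := by
    intro x
    have h1 : ‖T x‖ ^ 2 ≤ ‖x‖ * (r * ‖T x‖) := by
      rw [← real_inner_self_eq_norm_sq, ← LinearMap.adjoint_inner_right]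
      exact (real_inner_le_norm _ _).trans
        (mul_le_mul_of_nonneg_left (hadj _) (norm_nonneg _))
    by_contra hn
    rw [not_le] at hn
    have h2 : 0 < ‖T x‖ := lt_of_le_of_lt (by positivity) hn
    nlinarith
  obtain ⟨S', hS'⟩ : ∃ S' : Set (Eu (Fin m)), S' = (fun x => T x + b) ⁻¹' S := ⟨_, rfl⟩
  have hpre : ∀ B : Set (Eu (Fin k)), MeasurableSet B →
      μ' B = μ ((fun x => T x + b) ⁻¹' B) := fun B hB => by
    rw [hμ', Measure.map_apply hTm hB]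
  have hS'2 : μ S' = 1 / 2 := by rw [hS', ← hpre S hS]; exact hS2
  have h1 := hhalf S' hS'2
  have h2 := liminf_scale (fun ε : ℝ => (μ (Metric.thickening ε S') - μ S') / ENNReal.ofReal ε) r hr0
  have h3 := h1.trans h2
  have hrne : ENNReal.ofReal r⁻¹ ≠ ⊤ := ENNReal.ofReal_ne_top
  have h4 : ENNReal.ofReal r⁻¹ * ENNReal.ofReal c1 ≤ liminf (fun ε : ℝ => ENNReal.ofReal r⁻¹ *
      ((μ (Metric.thickening (ε / r) S') - μ S') / ENNReal.ofReal (ε / r))) (𝓝[>] 0) := by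
    rw [ENNReal.liminf_const_mul_of_ne_top hrne]
    exact mul_le_mul_right h3 _
  have h5 : ENNReal.ofReal (c1 * Real.sqrt c / Real.sqrt s) =
      ENNReal.ofReal r⁻¹ * ENNReal.ofReal c1 := by
    rw [← ENNReal.ofReal_mul (by positivity)]
    congr 1
    rw [hr, Real.sqrt_div hs.le, inv_div]
    ring
  rw [h5]
  refine h4.trans (liminf_le_liminf ?_)
  filter_upwards [self_mem_nhdsWithin] with ε hε
  have hε0 : 0 < ε := hε
  have h6 : ENNReal.ofReal r⁻¹ * ((μ (Metric.thickening (ε / r) S') - μ S') /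
      ENNReal.ofReal (ε / r)) = (μ (Metric.thickening (ε / r) S') - μ S') / ENNReal.ofReal ε := by
    have h7 : ENNReal.ofReal (ε / r) = ENNReal.ofReal ε * ENNReal.ofReal r⁻¹ := by
      rw [← ENNReal.ofReal_mul hε0.le, div_eq_mul_inv]
    have hr1 : ENNReal.ofReal r⁻¹ ≠ 0 := by
      rw [Ne, ENNReal.ofReal_eq_zero, not_le]
      positivity
    rw [h7, ENNReal.div_eq_inv_mul, ENNReal.div_eq_inv_mul,
      ENNReal.mul_inv (Or.inr hrne) (Or.inr hr1)]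
    calc ENNReal.ofReal r⁻¹ * ((ENNReal.ofReal ε)⁻¹ * (ENNReal.ofReal r⁻¹)⁻¹ *
          (μ (Metric.thickening (ε / r) S') - μ S'))
        = (ENNReal.ofReal r⁻¹ * (ENNReal.ofReal r⁻¹)⁻¹) * ((ENNReal.ofReal ε)⁻¹ *
          (μ (Metric.thickening (ε / r) S') - μ S')) := by ring
      _ = _ := by rw [ENNReal.mul_inv_cancel hr1 hrne, one_mul]
  rw [h6]
  refine ENNReal.div_le_div_right ?_ _
  rw [hS2, hS'2]
  refine tsub_le_tsub_right ?_ _
  rw [hpre _ Metric.isOpen_thickening.measurableSet]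
  refine measure_mono fun y hy => ?_
  obtain ⟨z, hz, hyz⟩ := Metric.mem_thickening_iff.1 hy
  rw [hS'] at hz
  refine Metric.mem_thickening_iff.2 ⟨T z + b, hz, ?_⟩
  have h8 : dist (T y + b) (T z + b) = ‖T (y - z)‖ := by
    rw [dist_add_right, dist_eq_norm, ← map_sub]
  rw [dist_eq_norm] at hyz
  have h9 : r * ‖y - z‖ < ε := by
    calc r * ‖y - z‖ < r * (ε / r) := mul_lt_mul_of_pos_left hyz hr0
      _ = ε := by field_simp
  calc dist (T y + b) (T z + b) = ‖T (y - z)‖ := h8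
    _ ≤ r * ‖y - z‖ := hT _
    _ < ε := h9

end Pool.Agent.Y506.FF
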