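import Pool.Agent.Y506.FF.Conc

/-!
# Lipschitz functions on the section are concentrated
-/

set_option autoImplicit false

namespace Pool.Agent.Y506.FF

open MeasureTheory Set Filter Topology
open scoped ENNReal InnerProductSpace
open Pool.Agent.W695.KH (Eu EU EV VV Sm Pot Uu)

variable {ι : Type} [Fintype ι] {n d : ℕ}

/-- adjoint of the isometry -/
noncomputable def adj (L : Eu (Fin n) →ₗᵢ[ℝ] Eu ι) : Eu ι →L[ℝ] Eu (Fin n) :=
  ContinuousLinearMap.adjoint L.toContinuousLinearMap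

theorem adj_apply (L : Eu (Fin n) →ₗᵢ[ℝ] Eu ι) (x : Eu (Fin n)) : adj L (L x) = x := by
  refine ext_inner_right ℝ fun y => ?_
  unfold adj
  rw [ContinuousLinearMap.adjoint_inner_left]
  exact L.inner_map_map x y

theorem adj_norm (L : Eu (Fin n) →ₗᵢ[ℝ] Eu ι) : ‖adj L‖ ≤ 1 := by
  unfold adj
  rw [LinearIsometryEquiv.norm_map]
  exact L.norm_toContinuousLinearMap_le

theorem adj_le (L : Eu (Fin n) →ₗᵢ[ℝ] Eu ι) (s : Eu ι) : ‖adj L s‖ ≤ ‖s‖ := by
  have h1 := (adj L).le_opNorm s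
  have h2 := adj_norm L
  nlinarith [norm_nonneg s]

theorem push {E F : Type} [NormedAddCommGroup E] [NormedSpace ℝ E] [NormedAddCommGroup F]
    [NormedSpace ℝ F] (A : E →L[ℝ] F) (hA : ‖A‖ ≤ 1) (c : F) (v : F → ℝ) (hv : ContDiff ℝ 1 v)
    (l : ℝ) (hl0 : 0 ≤ l) (hl : ∀ x, ‖fderiv ℝ v x‖ ≤ l) :
    ContDiff ℝ 1 (fun s => v (A s - c)) ∧ ∀ s, ‖fderiv ℝ (fun s => v (A s - c)) s‖ ≤ l := by
  refine ⟨hv.comp (A.contDiff.sub contDiff_const), fun s => ?_⟩
  have h1 : HasFDerivAt (fun s => A s - c) A s := A.hasFDerivAt.sub_const c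
  have h3 : HasFDerivAt v (fderiv ℝ v (A s - c)) (A s - c) :=
    (hv.differentiable one_ne_zero _).hasFDerivAt
  have h4 : HasFDerivAt (fun s => v (A s - c)) ((fderiv ℝ v (A s - c)).comp A) s :=
    HasFDerivAt.comp s h3 h1
  rw [h4.fderiv]
  calc ‖(fderiv ℝ v (A s - c)).comp A‖
      ≤ ‖fderiv ℝ v (A s - c)‖ * ‖A‖ := ContinuousLinearMap.opNorm_comp_le _ _
    _ ≤ l * 1 := mul_le_mul (hl _) hA (norm_nonneg _) hl0
    _ = l := mul_one l

theorem lip_of {F : Type} [NormedAddCommGroup F] [NormedSpace ℝ F] (v : F → ℝ)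
    (hv : ContDiff ℝ 1 v) (l : ℝ) (hl : ∀ x, ‖fderiv ℝ v x‖ ≤ l) (x y : F) :
    |v y - v x| ≤ l * ‖y - x‖ :=
  Convex.norm_image_sub_le_of_norm_fderiv_le (𝕜 := ℝ) (f := v) (s := univ) (C := l)
    (fun _ _ => (hv.differentiable one_ne_zero).differentiableAt) (fun y _ => hl y)
    convex_univ (mem_univ x) (mem_univ _)

theorem Yw_meas (L : Eu (Fin n) →ₗᵢ[ℝ] Eu ι) (M : Eu (Fin d) →ₗᵢ[ℝ] Eu ι) :
    Measurable (Yw L M) := by
  unfold Yw
  refine Finset.measurable_sum _ fun i _ => ?_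
  have h1 : Measurable fun x => L x i := (coord_cont L i).measurable
  fun_prop

theorem Yw_nonneg (L : Eu (Fin n) →ₗᵢ[ℝ] Eu ι) (M : Eu (Fin d) →ₗᵢ[ℝ] Eu ι) (x : Eu (Fin n))
    (hx : x ∈ KB L) : 0 ≤ Yw L M x :=
  Finset.sum_nonneg fun i _ => mul_nonneg (pw_nonneg M i)
    (add_nonneg (div_nonneg (hx i) (by norm_num)) (le_max_left _ _))

/-- the measure of the bad set -/
theorem bad (hLD : S_LD) (hM : S_MOM) (hD : S_DEC) (hS : S_SPL) (hlog : S_LOG) (hV : S_VAR)
    (hTH : S_TH) (d : ℕ) (hd : 0 < d) : ∃ l : ℝ, 0 < l ∧ ∀ (ι : Type) [Fintype ι] (n : ℕ)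
      (L : Eu (Fin (n + 1)) →ₗᵢ[ℝ] Eu ι)
      (M : Eu (Fin d) →ₗᵢ[ℝ] Eu ι), Pair L M → (∀ x, ∑ i, L x i = 0) →
      ∀ v : Eu (Fin (n + 1)) → ℝ, ContDiff ℝ 1 v → (∀ x, |v x| ≤ 1) →
      (∀ x, ‖fderiv ℝ v x‖ ≤ l) → ∃ m : ℝ, |m| ≤ 1 ∧
        volume (KB L ∩ {x | 1 / 10 ≤ |v x - m|}) ≤ volume (KB L) * ENNReal.ofReal (1 / 400) := by
  obtain ⟨c, C, hc, hC, H1⟩ := vol_bd hLD hM hD d hd
  obtain ⟨CY, hCY, H2⟩ := Yw_int hLD hM hD hS hlog d hd
  obtain ⟨a, ha, H3⟩ := hTH d
  obtain ⟨K, hK⟩ : ∃ K : ℝ, K = 1600 + 200 * d := ⟨_, rfl⟩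
  have hK0 : 0 < K := by rw [hK]; positivity
  obtain ⟨T, hT⟩ : ∃ T : ℝ, T = 800 * CY := ⟨_, rfl⟩
  have hT0 : 0 < T := by rw [hT]; positivity
  obtain ⟨l, hl⟩ : ∃ l : ℝ, l = Real.sqrt (c * a / (800 * K * Real.exp T)) := ⟨_, rfl⟩
  have hl0 : 0 < l := by rw [hl]; exact Real.sqrt_pos.2 (by positivity)
  have hl2 : l ^ 2 = c * a / (800 * K * Real.exp T) := by
    rw [hl, Real.sq_sqrt (by positivity)]
  refine ⟨l, hl0, fun ι _ n L M hP hL v hv hv1 hvl => ?_⟩
  obtain ⟨v1, v2, v3⟩ := H1 ι (n + 1) L M hP hL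
  obtain ⟨y1, y2⟩ := H2 ι n L M hP hL
  obtain ⟨-, -, -, -, hsq⟩ := hM ι
  -- the pushed function
  obtain ⟨f, hf⟩ : ∃ f : Eu ι → ℝ, f = fun s => v (adj L s - adj L one) := ⟨_, rfl⟩
  obtain ⟨hfc, hfl⟩ := push (adj L) (adj_norm L) (adj L one) v hv l hl0.le hvl
  rw [← hf] at hfc hfl
  have hf1 : ∀ s, |f s| ≤ 1 := fun s => by rw [hf]; exact hv1 _
  obtain ⟨m, hm, hvar⟩ := hV ι f l hfc hf1 hl0.le hfl
  refine ⟨m, hm, ?_⟩
  -- sets
  obtain ⟨B, hB⟩ : ∃ B : Set (Eu (Fin (n + 1))), B = {x | ∀ i, 0 < 1 + L x i} ∩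
    {x | 1 / 10 ≤ |v x - m|} := ⟨_, rfl⟩
  have hBm : MeasurableSet B := by
    rw [hB]
    refine MeasurableSet.inter ?_ ?_
    · have h1 : {x | ∀ i, 0 < 1 + L x i} = ⋂ i, {x | 0 < 1 + L x i} := by
        ext x
        simp
      rw [h1]
      exact MeasurableSet.iInter fun i =>
        (isOpen_lt continuous_const (continuous_const.add (coord_cont L i))).measurableSet
    · exact (isClosed_le continuous_const ((hv.continuous.sub continuous_const).abs)).measurableSet
  have hBK : B ⊆ KB L := by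
    rw [hB]
    exact fun x hx i => (hx.1 i).le
  obtain ⟨Q, hQ⟩ : ∃ Q : Eu ι → ℝ, Q = fun s => ∑ i, pw M i * s i ^ 2 := ⟨_, rfl⟩
  have hQc : Continuous Q := by rw [hQ]; fun_prop
  have hQ0 : ∀ s, 0 ≤ Q s := fun s => by
    rw [hQ]
    exact Finset.sum_nonneg fun i _ => mul_nonneg (pw_nonneg M i) (sq_nonneg _)
  obtain ⟨S, hSd⟩ : ∃ S : Set (Eu ι), S = {s | 1 ≤ 400 * (f s - m) ^ 2 + 100 * l ^ 2 * Q s} :=
    ⟨_, rfl⟩
  have hfcont := hfc.continuous
  have hSm : MeasurableSet S := by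
    rw [hSd]
    exact (isClosed_le continuous_const (by fun_prop)).measurableSet
  have hBS : ∀ s : Eu ι, (∀ i, 0 < s i) →
      (∃ x ∈ B, ‖s - (one + L x)‖ ^ 2 ≤ 1 / 4 * ∑ i, pw M i * s i ^ 2) → s ∈ S := by
    rintro s hs ⟨x, hx, hsx⟩
    have hsx' : ‖s - (one + L x)‖ ^ 2 ≤ 1 / 4 * Q s := by rw [hQ]; exact hsx
    rw [hSd, mem_ofPred_eq]
    by_contra hn
    rw [not_le] at hn
    have h1 : 400 * (f s - m) ^ 2 < 1 := by nlinarith [hQ0 s, sq_nonneg l]
    have h2 : 100 * l ^ 2 * Q s < 1 := by nlinarith [sq_nonneg (f s - m)]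
    have h3 : |f s - m| < 1 / 20 := by
      rw [← sq_lt_sq₀ (abs_nonneg _) (by norm_num), sq_abs]
      linarith
    have h4 : |f s - v x| ≤ l * ‖s - (one + L x)‖ := by
      have h5 : |v (adj L s - adj L one) - v x| ≤ l * ‖(adj L s - adj L one) - x‖ :=
        lip_of v hv l hvl x _
      have h6 : (adj L s - adj L one) - x = adj L (s - (one + L x)) := by
        rw [map_sub, map_add, adj_apply, sub_sub]
      rw [h6] at h5
      rw [hf]
      exact h5.trans (mul_le_mul_of_nonneg_left (adj_le L _) hl0.le)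
    have h7 : l * ‖s - (one + L x)‖ < 1 / 20 := by
      rw [← sq_lt_sq₀ (by positivity) (by norm_num), mul_pow]
      have : l ^ 2 * ‖s - (one + L x)‖ ^ 2 ≤ l ^ 2 * (1 / 4 * Q s) :=
        mul_le_mul_of_nonneg_left hsx' (sq_nonneg l)
      linarith
    have h8 : 1 / 10 ≤ |v x - m| := by
      rw [hB] at hx
      exact hx.2
    have h9 : |v x - m| ≤ |f s - v x| + |f s - m| := by
      have h10 : v x - m = -(f s - v x) + (f s - m) := by ring
      rw [h10]
      refine (abs_add_le _ _).trans ?_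
      rw [abs_neg]
    linarith
  have hth := H3 ι (n + 1) L M hP hL B hBm (fun x hx => by rw [hB] at hx; exact hx.1) S hSm hBS
  -- upper bound of the right side
  have hup : ∫⁻ s in S, rho s ≤ ENNReal.ofReal (K * l ^ 2) := by
    have h1 : ∫⁻ s in S, rho s ≤ ∫⁻ s, (400 * (ENNReal.ofReal ((f s - m) ^ 2) * rho s) +
        ∑ i, ENNReal.ofReal (100 * l ^ 2 * pw M i) * (ENNReal.ofReal (s i ^ 2) * rho s)) := by
      rw [← lintegral_indicator hSm]
      refine lintegral_mono fun s => ?_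
      by_cases hs : s ∈ S
      · rw [indicator_of_mem hs]
        rw [hSd, mem_ofPred_eq] at hs
        have h2 : (1 : ℝ≥0∞) ≤ 400 * ENNReal.ofReal ((f s - m) ^ 2) +
            ∑ i, ENNReal.ofReal (100 * l ^ 2 * pw M i) * ENNReal.ofReal (s i ^ 2) := by
          have h3 : ∑ i, ENNReal.ofReal (100 * l ^ 2 * pw M i) * ENNReal.ofReal (s i ^ 2) =
              ENNReal.ofReal (100 * l ^ 2 * Q s) := by
            rw [hQ, Finset.mul_sum, ENNReal.ofReal_sum_of_nonneg fun i _ =>
              mul_nonneg (by positivity) (mul_nonneg (pw_nonneg M i) (sq_nonneg _))]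
            refine Finset.sum_congr rfl fun i _ => ?_
            rw [← ENNReal.ofReal_mul (mul_nonneg (by positivity) (pw_nonneg M i))]
            congr 1
            ring
          rw [h3, show (400 : ℝ≥0∞) = ENNReal.ofReal 400 by norm_num,
            ← ENNReal.ofReal_mul (by norm_num), ← ENNReal.ofReal_add (by positivity)
            (mul_nonneg (by positivity) (hQ0 s)), ← ENNReal.ofReal_one]
          exact ENNReal.ofReal_le_ofReal hs
        calc rho s = 1 * rho s := (one_mul _).symm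
          _ ≤ (400 * ENNReal.ofReal ((f s - m) ^ 2) +
            ∑ i, ENNReal.ofReal (100 * l ^ 2 * pw M i) * ENNReal.ofReal (s i ^ 2)) * rho s :=
              mul_le_mul_left h2 _
          _ = _ := by
              rw [add_mul, Finset.sum_mul]
              congr 1
              · ring
              · exact Finset.sum_congr rfl fun i _ => by ring
      · rw [indicator_of_notMem hs]
        exact zero_le
    have hm1 : Measurable fun s : Eu ι => ENNReal.ofReal ((f s - m) ^ 2) * rho s := by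
      have : Measurable fun s : Eu ι => ENNReal.ofReal ((f s - m) ^ 2) := by
        have := hfcont.measurable
        fun_prop
      exact this.mul rho_meas
    have hm2 : ∀ i, Measurable fun s : Eu ι => ENNReal.ofReal (s i ^ 2) * rho s := by
      intro i
      have : Measurable fun s : Eu ι => ENNReal.ofReal (s i ^ 2) := by fun_prop
      exact this.mul rho_meas
    have hm1' : Measurable fun s : Eu ι => 400 * (ENNReal.ofReal ((f s - m) ^ 2) * rho s) :=
      measurable_const.mul hm1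
    have hm2' : ∀ i ∈ Finset.univ, Measurable fun s : Eu ι =>
        ENNReal.ofReal (100 * l ^ 2 * pw M i) * (ENNReal.ofReal (s i ^ 2) * rho s) :=
      fun i _ => measurable_const.mul (hm2 i)
    rw [lintegral_add_left hm1', lintegral_const_mul _ hm1, lintegral_finsetSum _ hm2'] at h1
    refine h1.trans ?_
    have h4 : ∑ i, ∫⁻ s : Eu ι, ENNReal.ofReal (100 * l ^ 2 * pw M i) *
        (ENNReal.ofReal (s i ^ 2) * rho s) = ENNReal.ofReal (200 * d * l ^ 2) := by
      have h5 : ∀ i, ∫⁻ s : Eu ι, ENNReal.ofReal (100 * l ^ 2 * pw M i) *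
          (ENNReal.ofReal (s i ^ 2) * rho s) = ENNReal.ofReal (200 * l ^ 2 * pw M i) := by
        intro i
        rw [lintegral_const_mul _ (hm2 i), hsq i, show (2 : ℝ≥0∞) = ENNReal.ofReal 2 by norm_num,
          ← ENNReal.ofReal_mul (mul_nonneg (by positivity) (pw_nonneg M i))]
        congr 1
        ring
      simp only [h5]
      rw [← ENNReal.ofReal_sum_of_nonneg fun i _ => mul_nonneg (by positivity) (pw_nonneg M i),
        ← Finset.mul_sum, sum_pw]
      congr 1
      ring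
    rw [h4]
    calc 400 * (∫⁻ s, ENNReal.ofReal ((f s - m) ^ 2) * rho s) + ENNReal.ofReal (200 * d * l ^ 2)
        ≤ ENNReal.ofReal 400 * ENNReal.ofReal (4 * l ^ 2) + ENNReal.ofReal (200 * d * l ^ 2) := by
          refine add_le_add ?_ le_rfl
          rw [show (400 : ℝ≥0∞) = ENNReal.ofReal 400 by norm_num]
          exact mul_le_mul_right hvar _
      _ = ENNReal.ofReal (K * l ^ 2) := by
          rw [← ENNReal.ofReal_mul (by norm_num), ← ENNReal.ofReal_add (by positivity)
            (by positivity), hK]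
          congr 1
          ring
  -- the part where the weight is not small
  have hpart : volume (B ∩ {x | Yw L M x < T}) ≤ volume (KB L) * ENNReal.ofReal (1 / 800) := by
    obtain ⟨E, hE⟩ : ∃ E : ℝ, E = Real.exp (-(Fintype.card ι : ℝ)) := ⟨_, rfl⟩
    have hE0 : 0 < E := by rw [hE]; exact Real.exp_pos _
    rw [← hE] at hth v1
    have h1 : ENNReal.ofReal (Real.exp (-T)) * volume (B ∩ {x | Yw L M x < T}) ≤
        ∫⁻ x in B, ENNReal.ofReal (Real.exp (-Yw L M x)) := by
      have hms : MeasurableSet {x | Yw L M x < T} := measurableSet_lt (Yw_meas L M) measurable_const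
      rw [← setLIntegral_const, ← lintegral_indicator (hBm.inter hms), ← lintegral_indicator hBm]
      refine lintegral_mono fun x => ?_
      by_cases hx : x ∈ B ∩ {x | Yw L M x < T}
      · rw [indicator_of_mem hx, indicator_of_mem hx.1]
        refine ENNReal.ofReal_le_ofReal (Real.exp_le_exp.2 ?_)
        have := hx.2
        rw [mem_ofPred_eq] at this
        linarith
      · rw [indicator_of_notMem hx]
        exact zero_le
    have h2 : ENNReal.ofReal (a * E) * (ENNReal.ofReal (Real.exp (-T)) *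
        volume (B ∩ {x | Yw L M x < T})) ≤ ENNReal.ofReal (K * l ^ 2) :=
      (mul_le_mul_right h1 _).trans (hth.trans hup)
    have h3 : ENNReal.ofReal (K * l ^ 2) ≤ ENNReal.ofReal (K * l ^ 2 / c) *
        (ENNReal.ofReal E * volume (KB L)) := by
      calc ENNReal.ofReal (K * l ^ 2) = ENNReal.ofReal (K * l ^ 2 / c) * ENNReal.ofReal c := by
            rw [← ENNReal.ofReal_mul (by positivity), div_mul_cancel₀ _ hc.ne']
        _ ≤ _ := mul_le_mul_right v1 _
    have h4 : ENNReal.ofReal (a * E * Real.exp (-T)) * volume (B ∩ {x | Yw L M x < T}) ≤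
        ENNReal.ofReal (a * E * Real.exp (-T)) * (volume (KB L) * ENNReal.ofReal (1 / 800)) := by
      calc ENNReal.ofReal (a * E * Real.exp (-T)) * volume (B ∩ {x | Yw L M x < T})
          = ENNReal.ofReal (a * E) * (ENNReal.ofReal (Real.exp (-T)) *
            volume (B ∩ {x | Yw L M x < T})) := by
            rw [ENNReal.ofReal_mul (by positivity), mul_assoc]
        _ ≤ ENNReal.ofReal (K * l ^ 2 / c) * (ENNReal.ofReal E * volume (KB L)) := h2.trans h3
        _ = ENNReal.ofReal (K * l ^ 2 / c * E) * volume (KB L) := by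
            rw [ENNReal.ofReal_mul (p := K * l ^ 2 / c) (by positivity), mul_assoc]
        _ = ENNReal.ofReal (a * E * Real.exp (-T) * (1 / 800)) * volume (KB L) := by
            congr 2
            rw [hl2, Real.exp_neg]
            have := (Real.exp_pos T).ne'
            field_simp
        _ = _ := by
            rw [ENNReal.ofReal_mul (p := a * E * Real.exp (-T)) (by positivity)]
            ring
    have hne : ENNReal.ofReal (a * E * Real.exp (-T)) ≠ 0 := by
      rw [Ne, ENNReal.ofReal_eq_zero, not_le]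
      positivity
    exact (ENNReal.mul_le_mul_iff_right hne ENNReal.ofReal_ne_top).1 h4
  have hpart2 : volume (KB L ∩ {x | T ≤ Yw L M x}) ≤ volume (KB L) * ENNReal.ofReal (1 / 800) := by
    have h1 : ENNReal.ofReal T * volume (KB L ∩ {x | T ≤ Yw L M x}) ≤
        ∫⁻ x in KB L, ENNReal.ofReal (Yw L M x) := by
      have hms : MeasurableSet {x | T ≤ Yw L M x} := measurableSet_le measurable_const (Yw_meas L M)
      rw [← setLIntegral_const, ← lintegral_indicator ((KB_closed L).measurableSet.inter hms),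
        ← lintegral_indicator (KB_closed L).measurableSet]
      refine lintegral_mono fun x => ?_
      by_cases hx : x ∈ KB L ∩ {x | T ≤ Yw L M x}
      · rw [indicator_of_mem hx, indicator_of_mem hx.1]
        exact ENNReal.ofReal_le_ofReal hx.2
      · rw [indicator_of_notMem hx]
        exact zero_le
    have h2 : ENNReal.ofReal T * volume (KB L ∩ {x | T ≤ Yw L M x}) ≤
        ENNReal.ofReal T * (volume (KB L) * ENNReal.ofReal (1 / 800)) := by
      refine (h1.trans y1).trans (le_of_eq ?_)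
      have e : CY = T * (1 / 800) := by rw [hT]; ring
      rw [e, ENNReal.ofReal_mul hT0.le]
      ring
    have hne : ENNReal.ofReal T ≠ 0 := by
      rw [Ne, ENNReal.ofReal_eq_zero, not_le]
      exact hT0
    exact (ENNReal.mul_le_mul_iff_right hne ENNReal.ofReal_ne_top).1 h2
  have hcov : KB L ∩ {x | 1 / 10 ≤ |v x - m|} ⊆ (KB L \ {x | ∀ i, 0 < 1 + L x i}) ∪
      ((B ∩ {x | Yw L M x < T}) ∪ (KB L ∩ {x | T ≤ Yw L M x})) := by
    rintro x ⟨hx1, hx2⟩
    by_cases h1 : x ∈ {x | ∀ i, 0 < 1 + L x i}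
    · right
      rcases lt_or_ge (Yw L M x) T with h2 | h2
      · left
        refine ⟨?_, h2⟩
        rw [hB]
        exact ⟨h1, hx2⟩
      · right
        exact ⟨hx1, h2⟩
    · left
      exact ⟨hx1, h1⟩
  calc volume (KB L ∩ {x | 1 / 10 ≤ |v x - m|}) ≤ _ := measure_mono hcov
    _ ≤ volume (KB L \ {x | ∀ i, 0 < 1 + L x i}) +
        (volume (B ∩ {x | Yw L M x < T}) + volume (KB L ∩ {x | T ≤ Yw L M x})) :=
        (measure_union_le _ _).trans (add_le_add le_rfl (measure_union_le _ _))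
    _ ≤ 0 + (volume (KB L) * ENNReal.ofReal (1 / 800) +
        volume (KB L) * ENNReal.ofReal (1 / 800)) :=
        add_le_add y2.le (add_le_add hpart hpart2)
    _ = volume (KB L) * ENNReal.ofReal (1 / 400) := by
        rw [zero_add, ← mul_add, ← ENNReal.ofReal_add (by norm_num) (by norm_num)]
        norm_num

end Pool.Agent.Y506.FF
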