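import Pool.Agent.Y506.FF.Img
import Pool.Agent.Y506.KS.Gp
import Pool.Agent.Y506.KS.Pj

/-!
# Polytopes in position
-/

set_option autoImplicit false

namespace Pool.Agent.Y506.FF

open MeasureTheory Set Filter Topology
open scoped ENNReal InnerProductSpace
open Pool.Agent.W695.KH (Eu EU EV VV Sm Pot Uu)

theorem min_const (P : ℕ → ℝ → Prop) (h : ∀ d, 0 < d → ∃ c, 0 < c ∧ P d c)
    (hmono : ∀ d c c', 0 < c' → c' ≤ c → P d c → P d c') (q : ℕ) :
    ∃ c, 0 < c ∧ ∀ d, 0 < d → d ≤ q → P d c := by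
  induction q with
  | zero => exact ⟨1, one_pos, fun d h1 h2 => by omega⟩
  | succ q ih =>
    obtain ⟨c, hc, H⟩ := ih
    obtain ⟨c', hc', H'⟩ := h (q + 1) (Nat.succ_pos q)
    refine ⟨min c c', lt_min hc hc', fun d h1 h2 => ?_⟩
    rcases Nat.lt_or_ge q d with h3 | h3
    · have : d = q + 1 := by omega
      rw [this]
      exact hmono _ _ _ (lt_min hc hc') (min_le_right _ _) H'
    · exact hmono _ _ _ (lt_min hc hc') (min_le_left _ _) (H d h1 h3)

/-- a bounded polytope with centre is an affine image of a body in position -/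
theorem position {n N : ℕ} (hn : 1 ≤ n) (x0 : Eu (Fin n)) (u : Fin N → Eu (Fin n))
    (hu : ∑ i, u i = 0) (hb : Bornology.IsBounded {x : Eu (Fin n) | ∀ i, 0 ≤ 1 + ⟪u i, x - x0⟫_ℝ}) :
    ∃ (A : Eu (Fin n) ≃L[ℝ] Eu (Fin n)) (L : Eu (Fin n) →ₗᵢ[ℝ] Eu (Fin N)),
      n < N ∧ (∀ x, ∑ i, L x i = 0) ∧
      {x : Eu (Fin n) | ∀ i, 0 ≤ 1 + ⟪u i, x - x0⟫_ℝ} = (fun y => A y + x0) '' KB L := by
  let Q : Eu (Fin n) →ₗ[ℝ] Eu (Fin N) :=
    { toFun := fun x => WithLp.toLp 2 fun i => ⟪u i, x⟫_ℝ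
      map_add' := fun x y => by ext; simp [inner_add_right]
      map_smul' := fun c x => by ext; simp [real_inner_smul_right] }
  have hQi : ∀ x i, Q x i = ⟪u i, x⟫_ℝ := fun x i => rfl
  have hker : ∀ x, Q x = 0 → x = 0 := by
    intro x hx
    by_contra hne
    have hx1 : ∀ i, ⟪u i, x⟫_ℝ = 0 := fun i => by rw [← hQi, hx]; rfl
    obtain ⟨R, hR⟩ := hb.exists_norm_le
    have hxn : 0 < ‖x‖ := norm_pos_iff.2 hne
    have h1 := hR (x0 + ((R + ‖x0‖ + 1) / ‖x‖) • x) (by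
      intro i
      rw [add_sub_cancel_left, real_inner_smul_right, hx1, mul_zero, add_zero]
      exact zero_le_one)
    have hR0 : 0 ≤ R := by
      have := hR x0 (by
        intro i
        rw [sub_self, inner_zero_right, add_zero]
        exact zero_le_one)
      exact (norm_nonneg _).trans this
    have h2 : ‖((R + ‖x0‖ + 1) / ‖x‖) • x‖ = R + ‖x0‖ + 1 := by
      rw [norm_smul, Real.norm_eq_abs, abs_of_nonneg (by positivity), div_mul_cancel₀ _ hxn.ne']
    have h3 : ‖((R + ‖x0‖ + 1) / ‖x‖) • x‖ ≤ ‖x0 + ((R + ‖x0‖ + 1) / ‖x‖) • x‖ + ‖x0‖ := by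
      have := norm_sub_le (x0 + ((R + ‖x0‖ + 1) / ‖x‖) • x) x0
      rwa [add_sub_cancel_left] at this
    linarith
  have hinj : Function.Injective Q := by
    intro x y hxy
    have := hker (x - y) (by rw [map_sub, hxy, sub_self])
    exact sub_eq_zero.1 this
  obtain ⟨T, hT⟩ := Pool.Agent.Y506.KS.exists_T Q hinj
  let L : Eu (Fin n) →ₗᵢ[ℝ] Eu (Fin N) :=
    { toLinearMap := Q.comp T.symm.toLinearEquiv.toLinearMap
      norm_map' := fun x => by
        have h1 := hT (T.symm x)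
        rw [ContinuousLinearEquiv.apply_symm_apply] at h1
        rw [h1]
        rfl }
  have hL : ∀ x, L x = Q (T.symm x) := fun x => rfl
  have hsum : ∀ x, ∑ i, L x i = 0 := by
    intro x
    rw [hL]
    simp only [hQi]
    rw [← sum_inner, hu, inner_zero_left]
  refine ⟨T.symm, L, ?_, hsum, ?_⟩
  · have h1 : n ≤ N := by
      have := LinearMap.finrank_le_finrank_of_injective (f := L.toLinearMap) L.injective
      simpa using this
    rcases h1.eq_or_lt with h2 | h2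
    · exfalso
      have hsurj : Function.Surjective L.toLinearMap :=
        (LinearMap.injective_iff_surjective_of_finrank_eq_finrank (by simp [h2])).1 L.injective
      obtain ⟨x, hx⟩ := hsurj one
      have h3 := hsum x
      have h4 : L x = one := hx
      rw [h4] at h3
      have h5 : ∑ i : Fin N, (one : Eu (Fin N)) i = N := by
        unfold one
        simp
      rw [h5] at h3
      have : N = 0 := by exact_mod_cast h3
      omega
    · exact h2
  · ext x
    constructor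
    · intro hx
      refine ⟨T (x - x0), fun i => ?_, ?_⟩
      · rw [hL, ContinuousLinearEquiv.symm_apply_apply, hQi]
        exact hx i
      · simp
    · rintro ⟨y, hy, rfl⟩ i
      have h1 := hy i
      rw [hL, hQi] at h1
      simpa using h1

theorem unif_affine {n : ℕ} {K : Set (Eu (Fin n))} (hK : MeasurableSet K)
    (A : Eu (Fin n) ≃L[ℝ] Eu (Fin n)) (x0 : Eu (Fin n)) :
    (volume ((fun y => A y + x0) '' K))⁻¹ • volume.restrict ((fun y => A y + x0) '' K) =
      Measure.map (fun y => A y + x0) ((volume K)⁻¹ • volume.restrict K) := by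
  have h1 : (fun y => A y + x0) '' K = (fun y => y + x0) '' (A '' K) := by
    rw [image_image]
  have hAK : MeasurableSet (A '' K) := A.toHomeomorph.toMeasurableEquiv.measurableSet_image.2 hK
  have h2 : ∀ B : Set (Eu (Fin n)), volume ((fun y => y + x0) '' B) = volume B := fun B => by
    rw [image_add_right, measure_preimage_add_right]
  have h3 : Measure.map (fun y => A y + x0) ((volume K)⁻¹ • volume.restrict K) =
      Measure.map (fun y => y + x0) (Measure.map A ((volume K)⁻¹ • volume.restrict K)) := by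
    rw [Measure.map_map (by fun_prop) A.continuous.measurable]
    rfl
  rw [h3, ← Pool.Agent.Y506.KS.unif_image hK A, h1, h2]
  rw [Measure.map_smul]
  congr 1
  ext B hB
  rw [Measure.map_apply (by fun_prop) hB, Measure.restrict_apply hB,
    Measure.restrict_apply ((by fun_prop : Measurable fun y : Eu (Fin n) => y + x0) hB)]
  rw [← h2 ((fun y => y + x0) ⁻¹' B ∩ A '' K)]
  congr 1
  ext y
  constructor
  · rintro ⟨hy, z, hz, rfl⟩
    exact ⟨z, ⟨hy, hz⟩, rfl⟩
  · rintro ⟨z, ⟨hz1, hz2⟩, rfl⟩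
    exact ⟨hz1, z, hz2, rfl⟩

/-- **sets of measure one half for images of polytopes** -/
theorem poly_img (hLD : S_LD) (hM : S_MOM) (hD : S_DEC) (hS : S_SPL) (hlog : S_LOG) (hV : S_VAR)
    (hTH : S_TH) (hmil : S_MILB) (hcpl : S_CPL) (hcen : S_CEN) (q : ℕ) : ∃ c : ℝ, 0 < c ∧
    ∀ (n N : ℕ), 1 ≤ n → N ≤ n + q → ∀ (v : Fin N → Eu (Fin n)) (b : Fin N → ℝ),
    Bornology.IsBounded {x : Eu (Fin n) | ∀ i, ⟪v i, x⟫_ℝ ≤ b i} →
    (interior {x : Eu (Fin n) | ∀ i, ⟪v i, x⟫_ℝ ≤ b i}).Nonempty →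
    ∀ (k : ℕ) (T : Eu (Fin n) →ₗ[ℝ] Eu (Fin k)) (μ : Measure (Eu (Fin k))),
    μ = Measure.map T ((volume {x : Eu (Fin n) | ∀ i, ⟪v i, x⟫_ℝ ≤ b i})⁻¹ •
      volume.restrict {x : Eu (Fin n) | ∀ i, ⟪v i, x⟫_ℝ ≤ b i}) →
    ∀ s : ℝ, 0 < s → (∀ θ : Eu (Fin k), ‖θ‖ = 1 →
      ProbabilityTheory.variance (fun x => ⟪x, θ⟫_ℝ) μ ≤ s) →
    ∀ S : Set (Eu (Fin k)), MeasurableSet S → μ S = 1 / 2 →
    ENNReal.ofReal (c / Real.sqrt s) ≤
      liminf (fun ε : ℝ => (μ (Metric.thickening ε S) - μ S) / ENNReal.ofReal ε) (𝓝[>] 0) := by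
  -- one codimension
  have key := min_const (fun d c => ∀ (n N : ℕ) (L : Eu (Fin (n + 1)) →ₗᵢ[ℝ] Eu (Fin N))
      (M : Eu (Fin d) →ₗᵢ[ℝ] Eu (Fin N)), Pair L M → (∀ x, ∑ i, L x i = 0) →
      ∀ (k : ℕ) (T : Eu (Fin (n + 1)) →ₗ[ℝ] Eu (Fin k)) (b : Eu (Fin k)) (μ : Measure (Eu (Fin k))),
      μ = Measure.map (fun x => T x + b) ((volume (KB L))⁻¹ • volume.restrict (KB L)) →
      ∀ s : ℝ, 0 < s → (∀ θ : Eu (Fin k), ‖θ‖ = 1 →
        ProbabilityTheory.variance (fun x => ⟪x, θ⟫_ℝ) μ ≤ s) →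
      ∀ S : Set (Eu (Fin k)), MeasurableSet S → μ S = 1 / 2 →
      ENNReal.ofReal (c / Real.sqrt s) ≤
        liminf (fun ε : ℝ => (μ (Metric.thickening ε S) - μ S) / ENNReal.ofReal ε) (𝓝[>] 0))
    (by
      intro d hd
      obtain ⟨c1, hc1, H1⟩ := half_body hLD hM hD hS hlog hV hTH hmil d hd
      obtain ⟨c, hc, H2⟩ := lowvar hLD hM hD hS d hd
      obtain ⟨c3, C3, hc3, hC3, H3⟩ := vol_bd hLD hM hD d hd
      refine ⟨c1 * Real.sqrt c, by positivity, ?_⟩
      intro n N L M hP hL k T b μ hμ s hs hvar S hS1 hS2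
      obtain ⟨-, v2, v3⟩ := H3 (Fin N) (n + 1) L M hP hL
      exact half_img (KB_compact L hL) (pos_iff_ne_zero.2 v2) _ rfl c c1 hc hc1
        (fun θ a hθ => H2 (Fin N) n L M hP hL θ a hθ)
        (fun S hS => H1 (Fin N) n L M hP hL _ rfl S hS) T b μ hμ s hs hvar S hS1 hS2)
    (by
      intro d c c' hc' hcc H n N L M hP hL k T b μ hμ s hs hvar S hS1 hS2
      refine le_trans (ENNReal.ofReal_le_ofReal ?_) (H n N L M hP hL k T b μ hμ s hs hvar S hS1 hS2)
      exact div_le_div_of_nonneg_right hcc (Real.sqrt_nonneg s)) q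
  obtain ⟨c, hc, H⟩ := key
  refine ⟨c, hc, ?_⟩
  intro n N hn hN v b hbd hint k T μ hμ s hs hvar S hS1 hS2
  obtain ⟨x0, u, hu, hset⟩ := hcen (Fin N) n v b hbd hint
  rw [hset] at hμ hbd
  obtain ⟨A, L, hnN, hL, hA⟩ := position hn x0 u hu hbd
  obtain ⟨m, rfl⟩ : ∃ m, n = m + 1 := ⟨n - 1, by omega⟩
  obtain ⟨d, hd⟩ : ∃ d, d = N - (m + 1) := ⟨_, rfl⟩
  obtain ⟨M, hP⟩ := hcpl (Fin N) (m + 1) d L (by rw [Fintype.card_fin]; omega)
  have hTm : Measurable T := T.continuous_of_finiteDimensional.measurable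
  have hAm : Measurable fun y => A y + x0 := by
    have := A.continuous.measurable
    fun_prop
  refine H d (by omega) (by omega) m N L M hP hL k (T.comp A.toLinearEquiv.toLinearMap) (T x0) μ ?_
    s hs hvar S hS1 hS2
  rw [hμ, hA, unif_affine (KB_closed L).measurableSet A x0, Measure.map_map hTm hAm]
  congr 1
  funext y
  rw [Function.comp_apply, map_add]
  rfl

end Pool.Agent.Y506.FF
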